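import Pool.Agent.H362.Main

/-!
# Lipschitz quotient maps from the James tree space onto `ℓ₁` have distortion at least `√2`
-/

set_option autoImplicit false

open Set Filter Topology
open scoped NNReal

namespace Pool.Agent.Results.MP_df3c4e_an.DistortionSqrtTwo

/-- The James tree space: the completion of the finitely supported real functions on the dyadic
tree under the James tree norm. -/
noncomputable abbrev JT : Type :=
  UniformSpace.Completion (Pool.Agent.R277.JT.Pre Pool.Agent.R277.JT.Tree)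

/-- If `f : JT → ℓ₁` is `L`-Lipschitz and `f(B_ε(x)) ⊇ B_{ε/C}(f(x))` for all `x` and `ε > 0`,
then `L * C ≥ √2`. -/
theorem result (f : JT → lp (fun _ : ℕ => ℝ) 1) (L : ℝ≥0) (hL : LipschitzWith L f)
    (C : ℝ) (hC : 0 < C)
    (hco : ∀ x : JT, ∀ ε > 0, Metric.ball (f x) (ε / C) ⊆ f '' Metric.ball x ε) :
    √2 ≤ (L : ℝ) * C := by
  have hLf : ∀ x y : JT, ‖f x - f y‖ ≤ (L : ℝ) * ‖x - y‖ := fun x y => by
    rw [← dist_eq_norm, ← dist_eq_norm]
    exact hL.dist_le_mul x y
  apply Pool.Agent.H362.pre_bound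
    (g := fun x : Pool.Agent.R277.JT.Pre Pool.Agent.R277.JT.Tree => f (x : JT))
    (fun x y => ?_) L.2 hC (fun x ρ hρ u hu δ hδ => ?_)
  · have h := hLf (x : JT) (y : JT)
    rwa [← UniformSpace.Completion.coe_sub, UniformSpace.Completion.norm_coe] at h
  · obtain ⟨y, hy, hyu⟩ := hco (x : JT) ρ hρ (show u ∈ Metric.ball (f x) (ρ / C) by
      rw [mem_ball_iff_norm]; exact hu)
    rw [mem_ball_iff_norm] at hy
    -- approximate `y` by a finitely supported function
    set τ := min (ρ - ‖y - (x : JT)‖) (δ / ((L : ℝ) + 1)) with hτ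
    have hL1 : 0 < (L : ℝ) + 1 := by positivity
    have hτ0 : 0 < τ := lt_min (by linarith) (by positivity)
    obtain ⟨x', hx'⟩ := (UniformSpace.Completion.denseRange_coe
      (α := Pool.Agent.R277.JT.Pre Pool.Agent.R277.JT.Tree)).exists_dist_lt y hτ0
    rw [dist_eq_norm] at hx'
    refine ⟨x', ?_, ?_⟩
    · rw [← UniformSpace.Completion.norm_coe, UniformSpace.Completion.coe_sub]
      have h1 : ‖(x' : JT) - (x : JT)‖ ≤ ‖y - (x' : JT)‖ + ‖y - (x : JT)‖ := by
        rw [← norm_sub_rev (x' : JT) y]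
        exact norm_sub_le_norm_sub_add_norm_sub _ _ _
      have h2 : τ ≤ ρ - ‖y - (x : JT)‖ := min_le_left _ _
      linarith
    · rw [← hyu]
      have h1 := hLf (x' : JT) y
      rw [norm_sub_rev (x' : JT) y] at h1
      have h2 : τ ≤ δ / ((L : ℝ) + 1) := min_le_right _ _
      have h3 : ‖y - (x' : JT)‖ < δ / ((L : ℝ) + 1) := lt_of_lt_of_le hx' h2
      have h4 : ((L : ℝ) + 1) * ‖y - (x' : JT)‖ < δ := by
        rw [lt_div_iff₀ hL1] at h3
        linarith
      have h5 : 0 ≤ ‖y - (x' : JT)‖ := norm_nonneg _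
      calc ‖f (x' : JT) - f y‖ ≤ (L : ℝ) * ‖y - (x' : JT)‖ := h1
        _ ≤ ((L : ℝ) + 1) * ‖y - (x' : JT)‖ := by nlinarith
        _ < δ := h4

end Pool.Agent.Results.MP_df3c4e_an.DistortionSqrtTwo
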