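import Pool.Agent.H362O.Final

/-!
# Octahedral pseudometrics and Lipschitz quotient maps from the James tree space onto `ℓ₁`

A Lipschitz quotient map `JT → ℓ₁` with constants `1` and `D` exists if and only if `JT` carries a
`D`-octahedral pseudometric dominated by the norm distance.
-/

set_option autoImplicit false

open Set Filter Topology Metric
open scoped NNReal

namespace Pool.Agent.Results.MP_df3c4e_an.OctahedralCriterion

/-- The James tree space: the completion of the finitely supported real functions on the dyadic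
tree under the James tree norm. -/
noncomputable abbrev JT : Type :=
  UniformSpace.Completion (Pool.Agent.R277.JT.Pre Pool.Agent.R277.JT.Tree)

/-- Real `ℓ₁`. -/
abbrev L1 : Type := lp (fun _ : ℕ => ℝ) 1

/-- Pseudometrics dominated by the norm distance. -/
def IsPseudometric (ρ : JT → JT → ℝ) : Prop :=
  (∀ x, ρ x x = 0) ∧ (∀ x y, ρ x y = ρ y x) ∧ (∀ x y z, ρ x z ≤ ρ x y + ρ y z) ∧
    ∀ x y, ρ x y ≤ dist x y

/-- `D`-octahedrality: for every finite set `A`, every point `x` and every `D' > D` there are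
points `y ≠ x` arbitrarily close to `x` with `ρ y a ≥ ρ x a + dist x y / D'` for all `a ∈ A`. -/
def IsOctahedral (D : ℝ) (ρ : JT → JT → ℝ) : Prop :=
  ∀ A : Set JT, A.Finite → ∀ x, ∀ δ > 0, ∀ D' > D,
    ∃ y, 0 < dist x y ∧ dist x y < δ ∧ ∀ a ∈ A, ρ x a + dist x y / D' ≤ ρ y a

/-- For each `D > 0`, a `1`-Lipschitz map `f : JT → ℓ₁` with `f(B_ε(x)) ⊇ B_{ε/D}(f(x))` for all `x`
and `ε > 0` exists if and only if there is a `D`-octahedral pseudometric on `JT` dominated by the
norm distance. -/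
theorem result (D : ℝ) (hD : 0 < D) :
    (∃ f : JT → L1, LipschitzWith 1 f ∧ ∀ x, ∀ ε > 0, ball (f x) (ε / D) ⊆ f '' ball x ε) ↔
      ∃ ρ : JT → JT → ℝ, IsPseudometric ρ ∧ IsOctahedral D ρ := by
  have hPM : ∀ ρ : JT → JT → ℝ, IsPseudometric ρ ↔ Pool.Agent.H362O.IsPM ρ := fun ρ =>
    ⟨fun h => ⟨h.1, h.2.1, h.2.2.1, h.2.2.2⟩, fun h => ⟨h.self, h.comm, h.tri, h.le_dist⟩⟩
  refine (Pool.Agent.H362O.quant (E := JT) D hD).trans ?_
  constructor
  · rintro ⟨ρ, h1, h2⟩; exact ⟨ρ, (hPM ρ).2 h1, h2⟩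
  · rintro ⟨ρ, h1, h2⟩; exact ⟨ρ, (hPM ρ).1 h1, h2⟩

end Pool.Agent.Results.MP_df3c4e_an.OctahedralCriterion
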