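import Pool.Agent.H362O.Plateau

/-!
# A Lipschitz function from the James tree space onto the line with plateaus everywhere

Every ball of radius `5 * r` in the James tree space contains a ball of radius `r` on which the
function is constant, with value as close as desired to its value at the centre of the big ball.
-/

set_option autoImplicit false

open Set Filter Topology Metric
open scoped NNReal

namespace Pool.Agent.Results.MP_df3c4e_an.PlateauFunction

/-- The James tree space: the completion of the finitely supported real functions on the dyadic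
tree under the James tree norm. -/
noncomputable abbrev JT : Type :=
  UniformSpace.Completion (Pool.Agent.R277.JT.Pre Pool.Agent.R277.JT.Tree)

/-- There is a `1`-Lipschitz function `P` from `JT` onto `ℝ` such that for all `x`, `r > 0` and
`ε > 0` there is a point `y` at distance at most `4 * r` from `x` such that `P` is constant on the
closed ball of radius `r` about `y`, with a value within `ε` of `P x`. -/
theorem result : ∃ P : JT → ℝ, LipschitzWith 1 P ∧ Function.Surjective P ∧
    ∀ x, ∀ r > 0, ∀ ε > 0, ∃ y c, dist x y ≤ 4 * r ∧ |c - P x| ≤ ε ∧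
      ∀ z, dist z y ≤ r → P z = c := by
  have hlip : LipschitzWith 1 Pool.Agent.H362O.Plateau.PP :=
    LipschitzWith.of_le_add fun x y => by
      rw [dist_eq_norm]; exact Pool.Agent.H362O.Plateau.PP_le x y
  have hcoe : ∀ a : Pool.Agent.R277.JT.Pre Pool.Agent.R277.JT.Tree,
      UniformSpace.Completion.extension Pool.Agent.H362O.Plateau.PP (a : JT) =
        Pool.Agent.H362O.Plateau.PP a := fun a =>
    UniformSpace.Completion.extension_coe hlip.uniformContinuous a
  set P : JT → ℝ := UniformSpace.Completion.extension Pool.Agent.H362O.Plateau.PP with hP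
  have hPl : LipschitzWith 1 P := hlip.completion_extension
  have hPd : ∀ x y, |P x - P y| ≤ dist x y := fun x y => by
    have := hPl.dist_le_mul x y
    rwa [NNReal.coe_one, one_mul, Real.dist_eq] at this
  refine ⟨P, hPl, fun s => ⟨_, (hcoe _).trans (Pool.Agent.H362O.Plateau.PP_root s)⟩, ?_⟩
  intro x r hr ε hε
  set e : ℝ := min (r / 16) (ε / 4) with he
  have he0 : 0 < e := lt_min (by linarith) (by linarith)
  have he1 : e ≤ r / 16 := min_le_left _ _
  have he2 : e ≤ ε / 4 := min_le_right _ _
  have hdense := UniformSpace.Completion.denseRange_coe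
    (α := Pool.Agent.R277.JT.Pre Pool.Agent.R277.JT.Tree)
  obtain ⟨x0, hx0⟩ := hdense.exists_dist_lt x he0
  obtain ⟨y0, c, h1, h2, h3, h4⟩ :=
    Pool.Agent.H362O.Plateau.plateau x0 (ρ := r + e) (ε := e) (by linarith) he0
  have h5 : dist (x0 : JT) (y0 : JT) ≤ 3 * (r + e + e) := by
    rw [UniformSpace.Completion.dist_eq, dist_eq_norm]; exact h1
  have h6 := hPd x (x0 : JT)
  rw [hcoe x0, abs_le] at h6
  refine ⟨(y0 : JT), c, ?_, ?_, fun z hz => ?_⟩
  · have := dist_triangle x (x0 : JT) (y0 : JT)
    linarith
  · rw [abs_le]
    constructor <;> linarith [h6.1, h6.2]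
  · have key : ∀ η > 0, |P z - c| ≤ η := by
      intro η hη
      obtain ⟨z0, hz0⟩ := hdense.exists_dist_lt z (lt_min hη he0)
      have h7 : dist (z0 : JT) (y0 : JT) ≤ r + e := by
        have t1 := dist_triangle (z0 : JT) z (y0 : JT)
        have t2 := lt_of_lt_of_le hz0 (min_le_right _ _)
        rw [dist_comm] at t2
        linarith
      rw [UniformSpace.Completion.dist_eq, dist_eq_norm] at h7
      have h8 := h4 z0 h7
      have h9 := hPd z (z0 : JT)
      rw [hcoe z0, h8] at h9
      exact h9.trans ((lt_of_lt_of_le hz0 (min_le_left _ _)).le)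
    have h10 : |P z - c| ≤ 0 := le_of_forall_pos_le_add fun η hη => by
      rw [zero_add]; exact key η hη
    exact sub_eq_zero.1 (abs_nonpos_iff.1 h10)

end Pool.Agent.Results.MP_df3c4e_an.PlateauFunction
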