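import Pool.Agent.H362O.Final

/-!
# A scalar criterion for `ℓ₁` to be a Lipschitz quotient of the James tree space

`ℓ₁` is a Lipschitz quotient of `JT` if and only if there is one real Lipschitz function on `JT` all
of whose superlevel sets split, near every point and at arbitrarily small scales, at a linear rate.
-/

set_option autoImplicit false

open Set Filter Topology Metric
open scoped NNReal

namespace Pool.Agent.Results.MP_df3c4e_an.SplittingCriterion

/-- The James tree space: the completion of the finitely supported real functions on the dyadic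
tree under the James tree norm. -/
noncomputable abbrev JT : Type :=
  UniformSpace.Completion (Pool.Agent.R277.JT.Pre Pool.Agent.R277.JT.Tree)

/-- Real `ℓ₁`. -/
abbrev L1 : Type := lp (fun _ : ℕ => ℝ) 1

/-- Lipschitz quotient maps from `JT` onto `ℓ₁`. -/
def IsLipschitzQuotient (f : JT → L1) : Prop :=
  Function.Surjective f ∧ (∃ K : ℝ≥0, LipschitzWith K f) ∧
    ∃ C > 0, ∀ x, ∀ ε > 0, ball (f x) (ε / C) ⊆ f '' ball x ε

/-- Splitting in two: there are `C > 0` and `0 ≤ θ < 1` such that near every point `x` and at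
arbitrarily small scales `r`, there are two points at distance at most `C * r` from `x`, at which
`P` is at least `P x + r`, and which no path in `{P > P x + θ * r}` joins. -/
def WeaklySplits (P : JT → ℝ) : Prop :=
  ∃ C > 0, ∃ θ, 0 ≤ θ ∧ θ < 1 ∧ ∀ x, ∀ δ > 0, ∃ r, 0 < r ∧ r < δ ∧
    ∃ y₁ y₂, dist x y₁ ≤ C * r ∧ dist x y₂ ≤ C * r ∧ P x + r ≤ P y₁ ∧ P x + r ≤ P y₂ ∧
      ¬ JoinedIn {z | P x + θ * r < P z} y₁ y₂

/-- Splitting in infinitely many parts: there is `C > 0` such that near every point `x` and at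
arbitrarily small scales `r`, there are a point at distance at most `C * r` from `x` at which `P` is
at most `P x - r`, and infinitely many points at distance at most `C * r` from `x`, at which `P` is
at least `P x + r`, and no two of which are joined by a path in `{P > P x}`. -/
def StronglySplits (P : JT → ℝ) : Prop :=
  ∃ C > 0, ∀ x, ∀ δ > 0, ∃ r, 0 < r ∧ r < δ ∧ (∃ y₀, dist x y₀ ≤ C * r ∧ P y₀ ≤ P x - r) ∧
    ∃ y : ℕ → JT, (∀ i, dist x (y i) ≤ C * r ∧ P x + r ≤ P (y i)) ∧
      ∀ i j, i ≠ j → ¬ JoinedIn {z | P x < P z} (y i) (y j)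

/-- The following are equivalent: `ℓ₁` is a Lipschitz quotient of `JT`; some `1`-Lipschitz function
`P : JT → ℝ` splits in two everywhere; some `1`-Lipschitz function `P : JT → ℝ` splits in
infinitely many parts everywhere. -/
theorem result :
    List.TFAE [∃ f : JT → L1, IsLipschitzQuotient f,
      ∃ P : JT → ℝ, LipschitzWith 1 P ∧ WeaklySplits P,
      ∃ P : JT → ℝ, LipschitzWith 1 P ∧ StronglySplits P] := by
  tfae_have 1 → 3 := by
    -- from quotient maps to strongly splitting functions
    rintro ⟨f, -, ⟨K, hK⟩, C, hC, hco⟩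
    obtain ⟨D, hD, g, hg, hgco⟩ := Pool.Agent.H362O.normalize hK hC hco
    obtain ⟨ρ, hρ, ho⟩ := (Pool.Agent.H362O.quant (E := JT) D hD).1 ⟨g, hg, hgco⟩
    obtain ⟨P, hP, hs⟩ := Pool.Agent.H362O.splitsInf_of_octa hρ hD ho
    exact ⟨P, hP, D + 1, by linarith, hs⟩
  tfae_have 3 → 2 := by
    -- strongly splitting functions are weakly splitting
    rintro ⟨P, hP, C, hC, hs⟩
    exact ⟨P, hP, C, hC, 0, le_rfl, one_pos, Pool.Agent.H362O.SplitsInf.splits hs⟩
  tfae_have 2 → 1 := by
    -- from weakly splitting functions to quotient maps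
    rintro ⟨P, hP, C, hC, θ, hθ0, hθ1, hs⟩
    obtain ⟨ρ, hρ, ho⟩ := Pool.Agent.H362O.octa_of_splits hP hC hθ0 hθ1 hs
    have hD : 0 < C * (C + 4) * (C * (C + 4) + 2) := by positivity
    obtain ⟨f, hf, hco⟩ := (Pool.Agent.H362O.quant (E := JT) _ hD).2 ⟨ρ, hρ, ho⟩
    exact ⟨f, Pool.Agent.H362O.surj_of_co hD hco, ⟨1, hf⟩, _, hD, hco⟩
  tfae_finish

end Pool.Agent.Results.MP_df3c4e_an.SplittingCriterion
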